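import Pool.Agent.L0h97.FR.TPOLY

/-!
# Project FR, module GROW: lengths which are not polynomial are doubled
-/

set_option autoImplicit false
set_option linter.all false

namespace Pool.Agent.L0h97.FR.Grow

open Pool.Agent.L0h79.FR Pool.Agent.L0h97.FR.TPoly Filter Topology

section Basic
variable {α : Type} [DecidableEq α]

theorem count_mul_le (g : α → ℕ) (e : α) : ∀ u : List α, u.count e * g e ≤ (u.map g).sum
  | [] => by simp
  | d :: u => by
      have ih := count_mul_le g e u
      rw [List.map_cons, List.sum_cons, List.count_cons]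
      by_cases hd : d = e
      · subst hd
        simp only [beq_self_eq_true, if_true]
        rw [add_mul, one_mul]
        omega
      · have : (d == e) = false := by simpa using hd
        rw [this]
        simp only [Bool.false_eq_true, if_false, Nat.add_zero]
        omega

theorem count_pow (σ : α → List α) (p : ℕ) (e : α) (h : 2 ≤ (sub σ p [e]).count e) :
    ∀ m, 2 ^ m ≤ (sub σ (p * m) [e]).count e
  | 0 => by simp [sub]
  | m + 1 => by
      have ih := count_pow σ p e h m
      rw [show p * (m + 1) = p * m + p by ring, sub_add, count_sub]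
      refine le_trans ?_ (count_mul_le (fun c => (sub σ p [c]).count e) e _)
      rw [pow_succ]
      exact Nat.mul_le_mul ih h

theorem len_add (σ : α → List α) (p n : ℕ) (c : α) :
    (sub σ (n + p) [c]).length = ((sub σ p [c]).map (fun d => (sub σ n [d]).length)).sum := by
  rw [show n + p = p + n by ring, sub_add, length_sub]

theorem len_succ (σ : α → List α) (n : ℕ) (c : α) :
    (sub σ (n + 1) [c]).length = ((σ c).map (fun d => (sub σ n [d]).length)).sum := by
  rw [sub_succ_single, length_sub]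

theorem two_mul_le (σ : α → List α) (R : Set α) (p : ℕ)
    (hp : ∀ e ∈ R, 2 ≤ (sub σ p [e]).count e) : ∀ (n : ℕ) (c : α),
    2 * (sub σ n [c]).length ≤ (sub σ (n + p) [c]).length + 2 * paths σ R n c := by
  intro n
  induction n with
  | zero =>
    intro c
    by_cases hc : c ∈ R
    · have h1 := hp c hc
      have h2 : (sub σ p [c]).count c ≤ (sub σ p [c]).length := List.count_le_length
      have h3 : (sub σ 0 [c]).length = 1 := rfl
      rw [h3, Nat.zero_add]
      omega
    · rw [paths_zero σ R c hc]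
      have h3 : (sub σ 0 [c]).length = 1 := rfl
      omega
  | succ n ih =>
    intro c
    by_cases hc : c ∈ R
    · rw [len_add σ p (n + 1) c]
      have h1 := count_mul_le (fun d => (sub σ (n + 1) [d]).length) c (sub σ p [c])
      have h2 : 2 * (sub σ (n + 1) [c]).length ≤
          (sub σ p [c]).count c * (sub σ (n + 1) [c]).length := Nat.mul_le_mul_right _ (hp c hc)
      omega
    · rw [paths_succ σ R n c hc, len_succ, show n + 1 + p = (n + p) + 1 by ring, len_succ]
      generalize σ c = l
      induction l with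
      | nil => simp
      | cons d l ih2 =>
        simp only [List.map_cons, List.sum_cons]
        have := ih d
        omega

theorem paths_eq (σ : α → List α) (R : Set α) : ∀ (n : ℕ) (a : α),
    (∀ j, ∀ e ∈ sub σ j [a], e ∉ R) → paths σ R n a = (sub σ n [a]).length := by
  intro n
  induction n with
  | zero =>
    intro a h
    rw [paths_zero σ R a (h 0 a (by simp [sub]))]
    rfl
  | succ n ih =>
    intro a h
    rw [paths_succ σ R n a (h 0 a (by simp [sub])), len_succ]
    congr 1
    refine List.map_congr_left (fun d hd => ih d (fun j e he => h (j + 1) e ?_))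
    rw [sub_succ_single, sub_flatMap σ j (σ a)]
    exact List.mem_flatMap.2 ⟨d, hd, he⟩

theorem len_ge (σ : α → List α) (p : ℕ) (hp : 0 < p) (e : α) (h : 2 ≤ (sub σ p [e]).count e)
    (n : ℕ) : 2 ^ (n / p) ≤ (sub σ n [e]).length := by
  have h1 : n = p * (n / p) + n % p := (Nat.div_add_mod n p).symm
  have h2 : n % p < p := Nat.mod_lt _ hp
  have h3 : 1 ≤ (sub σ (n % p) [e]).length := by
    by_contra hcon
    have h4 : sub σ (n % p) [e] = [] := by
      rw [← List.length_eq_zero_iff]; omega
    have h5 : sub σ p [e] = [] := by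
      rw [show p = n % p + (p - n % p) by omega, sub_add, h4, sub_nil]
    rw [h5] at h
    simp at h
  have h6 := count_pow σ p e h (n / p)
  have h7 : (sub σ n [e]).length =
      ((sub σ (p * (n / p)) [e]).map (fun d => (sub σ (n % p) [d]).length)).sum := by
    rw [← len_add σ (p * (n / p)) (n % p) e, Nat.add_comm, ← h1]
  rw [h7]
  refine le_trans ?_ (count_mul_le (fun d => (sub σ (n % p) [d]).length) e _)
  calc 2 ^ (n / p) = 2 ^ (n / p) * 1 := (Nat.mul_one _).symm
    _ ≤ _ := Nat.mul_le_mul h6 h3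

theorem len_mem (σ : α → List α) (j n : ℕ) (a e : α) (he : e ∈ sub σ j [a]) :
    (sub σ n [e]).length ≤ (sub σ (n + j) [a]).length := by
  rw [len_add]
  exact List.single_le_sum (by simp) _ (List.mem_map.2 ⟨e, he, rfl⟩)

end Basic

theorem exp_poly (C K : ℕ) : ∃ m₀ : ℕ, ∀ m ≥ m₀, C * (m + 1) ^ K ≤ 2 ^ m := by
  have h1 : Tendsto (fun n : ℕ => (n : ℝ) ^ K / (2 : ℝ) ^ n) atTop (𝓝 0) :=
    tendsto_pow_const_div_const_pow_of_one_lt K (by norm_num)
  have h2 : Tendsto (fun m : ℕ => ((m + 1 : ℕ) : ℝ) ^ K / (2 : ℝ) ^ (m + 1)) atTop (𝓝 0) :=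
    h1.comp (tendsto_add_atTop_nat 1)
  have h3 : ∀ᶠ m : ℕ in atTop, ((m + 1 : ℕ) : ℝ) ^ K / (2 : ℝ) ^ (m + 1) < 1 / (2 * (C + 1)) :=
    h2.eventually (gt_mem_nhds (by positivity))
  obtain ⟨m₀, hm⟩ := eventually_atTop.1 h3
  refine ⟨m₀, fun m hm' => ?_⟩
  have h4 := hm m hm'
  have h5 : (0 : ℝ) < 2 ^ (m + 1) := by positivity
  rw [div_lt_div_iff₀ h5 (by positivity)] at h4
  have h6 : (C : ℝ) * ((m + 1 : ℕ) : ℝ) ^ K ≤ 2 ^ m := by
    have h7 : (0 : ℝ) ≤ ((m + 1 : ℕ) : ℝ) ^ K := by positivity
    rw [pow_succ] at h4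
    nlinarith
  exact_mod_cast h6

theorem grow (h : S_TPOLY) : S_GROW := by
  intro α hα σ a hyp
  classical
  haveI := Fintype.ofFinite α
  set R : Set α := {e | ∃ p : ℕ, 0 < p ∧ 2 ≤ (sub σ p [e]).count e} with hR
  have h1 : ∀ e : α, ∃ p : ℕ, 0 < p ∧ (e ∈ R → 2 ≤ (sub σ p [e]).count e) := by
    intro e
    by_cases he : e ∈ R
    · obtain ⟨p, hp, hp'⟩ := he
      exact ⟨p, hp, fun _ => hp'⟩
    · exact ⟨1, one_pos, fun h => absurd h he⟩
  choose q hq hq' using h1
  set p : ℕ := ∏ e, q e with hp
  have hp0 : 0 < p := Finset.prod_pos (fun e _ => hq e)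
  have hpR : ∀ e ∈ R, 2 ≤ (sub σ p [e]).count e := by
    intro e he
    obtain ⟨m, hm⟩ : q e ∣ p := Finset.dvd_prod_of_mem q (Finset.mem_univ e)
    have hm0 : 0 < m := by
      rcases Nat.eq_zero_or_pos m with h | h
      · rw [h, Nat.mul_zero] at hm; omega
      · exact h
    rw [hm]
    have h2 := count_pow σ (q e) e (hq' e he) m
    have h3 : 2 ^ 1 ≤ 2 ^ m := Nat.pow_le_pow_right (by omega) hm0
    omega
  obtain ⟨K, hK⟩ := h α hα σ R (by
    intro e he j
    by_contra hcon
    exact he ⟨j + 1, Nat.succ_pos j, by omega⟩)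
  have hclaim := two_mul_le σ R p hpR
  by_cases hreach : ∃ j, ∃ e ∈ sub σ j [a], e ∈ R
  · obtain ⟨j, e, hej, heR⟩ := hreach
    obtain ⟨m₀, hm₀⟩ := exp_poly (4 * K * (j + p) ^ K) K
    refine ⟨p + p, j + p * m₀, fun n hn => ?_⟩
    have hbig : ∀ n, j + p * m₀ ≤ n → 4 * paths σ R n a ≤ (sub σ n [a]).length := by
      intro n hn
      have hm1 : m₀ ≤ (n - j) / p := by
        rw [Nat.le_div_iff_mul_le hp0, Nat.mul_comm]
        omega
      have h5 := hm₀ _ hm1
      have h6 : 2 ^ ((n - j) / p) ≤ (sub σ (n - j) [e]).length := len_ge σ p hp0 e (hpR e heR) _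
      have h7 := len_mem σ j (n - j) a e hej
      rw [Nat.sub_add_cancel (by omega : j ≤ n)] at h7
      have h8 : n + 1 ≤ (j + p) * ((n - j) / p + 1) := by
        have h9 : n - j < p * ((n - j) / p + 1) := by
          have := Nat.lt_mul_div_succ (n - j) hp0
          simpa using this
        have h10 : j ≤ j * ((n - j) / p + 1) := Nat.le_mul_of_pos_right _ (by omega)
        rw [add_mul]
        omega
      have h11 : (n + 1) ^ K ≤ (j + p) ^ K * ((n - j) / p + 1) ^ K := by
        rw [← Nat.mul_pow]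
        exact Nat.pow_le_pow_left h8 K
      have h12 := hK n a
      calc 4 * paths σ R n a ≤ 4 * (K * (n + 1) ^ K) := Nat.mul_le_mul_left _ h12
        _ ≤ 4 * (K * ((j + p) ^ K * ((n - j) / p + 1) ^ K)) :=
            Nat.mul_le_mul_left _ (Nat.mul_le_mul_left _ h11)
        _ = 4 * K * (j + p) ^ K * ((n - j) / p + 1) ^ K := by ring
        _ ≤ _ := h5
        _ ≤ _ := h6
        _ ≤ _ := h7
    have e1 := hclaim n a
    have e2 := hclaim (n + p) a
    have e3 := hbig n hn
    have e4 := hbig (n + p) (by omega)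
    rw [show n + (p + p) = n + p + p by ring]
    omega
  · exfalso
    push Not at hreach
    obtain ⟨n, hn⟩ := hyp K
    have h2 := hK n a
    rw [paths_eq σ R n a hreach] at h2
    omega

end Pool.Agent.L0h97.FR.Grow
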