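import Pool.Agent.L0h79.FR.Defs

/-!
# Project FR, module HGT: the height of a primitive relation between germs
-/

set_option autoImplicit false
set_option linter.all false

namespace Pool.Agent.L0h97.FR.Hgt

open Filter Topology Pool.Agent.TH932.Abs Pool.Agent.TH932.Germs Pool.Agent.TH932.Chi
open Pool.Agent.TH796.AL Pool.Agent.L0h79.FR

/-! ### group rings -/

theorem sum_single' {R G : Type*} [Semiring R] (f : AddMonoidAlgebra R G) (W : Finset G)
    (h : ∀ n, f.coeff n ≠ 0 → n ∈ W) :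
    f = ∑ g ∈ W, AddMonoidAlgebra.single g (f.coeff g) := by
  classical
  apply AddMonoidAlgebra.coeff_injective
  ext x
  rw [AddMonoidAlgebra.coeff_sum, Finsupp.finsetSum_apply]
  by_cases hx : x ∈ W
  · rw [Finset.sum_eq_single x]
    · rw [AddMonoidAlgebra.coeff_single, Finsupp.single_eq_same]
    · intro b _ hb
      rw [AddMonoidAlgebra.coeff_single, Finsupp.single_eq_of_ne (Ne.symm hb)]
    · intro h; exact absurd hx h
  · rw [Finset.sum_eq_zero]
    · by_contra hcon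
      exact hx (h x hcon)
    · intro b hb
      rw [AddMonoidAlgebra.coeff_single, Finsupp.single_eq_of_ne]
      rintro rfl; exact hx hb

theorem exists_of_mul {R G : Type*} [Semiring R] [AddCommGroup G] (f g : AddMonoidAlgebra R G)
    (n : G) (h : (f * g).coeff n ≠ 0) : ∃ a b, f.coeff a ≠ 0 ∧ g.coeff b ≠ 0 ∧ a + b = n := by
  classical
  by_contra hcon
  push Not at hcon
  apply h
  rw [sum_single' f f.coeff.support (fun n hn => Finsupp.mem_support_iff.2 hn),
    sum_single' g g.coeff.support (fun n hn => Finsupp.mem_support_iff.2 hn), Finset.sum_mul_sum,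
    AddMonoidAlgebra.coeff_sum, Finsupp.finsetSum_apply]
  refine Finset.sum_eq_zero (fun a ha => ?_)
  rw [AddMonoidAlgebra.coeff_sum, Finsupp.finsetSum_apply]
  refine Finset.sum_eq_zero (fun b hb => ?_)
  rw [AddMonoidAlgebra.single_mul_single, AddMonoidAlgebra.coeff_single, Finsupp.single_eq_of_ne]
  exact fun h' => hcon a b (Finsupp.mem_support_iff.1 ha) (Finsupp.mem_support_iff.1 hb) h'.symm

section order
variable {m d : ℕ} (B : Base m) (φ : (Fin d → ℤ) →+ (Fin m → ℝ)) (v : Option (Fin m))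

/-- the order at the place `v` -/
noncomputable def key (n : Fin d → ℤ) : ℝ ×ₗ Lex (Fin d → ℤ) := toLex (lv B v (φ n), toLex n)

theorem key_add (g h : Fin d → ℤ) : key B φ v (g + h) = key B φ v g + key B φ v h := by
  unfold key
  rw [map_add, lv_add]
  rfl

theorem key_inj : Function.Injective (key B φ v) := by
  intro g h hgh
  have h1 := toLex.injective hgh
  rw [Prod.mk.injEq] at h1
  exact toLex.injective h1.2

theorem uniq {S T : Finset (Fin d → ℤ)} {a b : Fin d → ℤ}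
    (ha : ∀ x ∈ S, key B φ v a ≤ key B φ v x) (hb : ∀ x ∈ T, key B φ v b ≤ key B φ v x) :
    UniqueAdd S T a b := by
  intro x y hx hy hxy
  have h1 := ha x hx
  have h2 := hb y hy
  have h3 : key B φ v x + key B φ v y = key B φ v a + key B φ v b := by
    rw [← key_add, ← key_add, hxy]
  have h4 : key B φ v x = key B φ v a := by
    refine le_antisymm ?_ h1
    by_contra hcon
    rw [not_le] at hcon
    exact absurd h3 (add_lt_add_of_lt_of_le hcon h2).ne'
  have h5 : key B φ v y = key B φ v b := by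
    rw [h4] at h3
    exact add_left_cancel h3
  exact ⟨key_inj B φ v h4, key_inj B φ v h5⟩

theorem key_le {g h : Fin d → ℤ} (hgh : key B φ v g ≤ key B φ v h) :
    lv B v (φ g) ≤ lv B v (φ h) := by
  unfold key at hgh
  rcases (Prod.Lex.toLex_le_toLex.1 hgh) with h1 | h1
  · exact h1.le
  · exact h1.1.le

end order

section ev
variable {m d : ℕ} {B : Base m} {L : ℕ → ℝ} (hL : Tendsto L atTop atTop)
  (φ : (Fin d → ℤ) →+ (Fin m → ℝ))

theorem ev_map (f : AddMonoidAlgebra (KK L hL) (Fin d → ℤ)) (W : Finset (Fin d → ℤ))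
    (h : ∀ n, f.coeff n ≠ 0 → n ∈ W) :
    ev B hL (AddMonoidAlgebra.mapDomainRingHom (KK L hL) φ f) =
      ∑ n ∈ W, ((f.coeff n : KK L hL) : GG) * ch B hL (φ n) := by
  conv_lhs => rw [sum_single' f W h]
  rw [map_sum, map_sum]
  refine Finset.sum_congr rfl fun n _ => ?_
  rw [AddMonoidAlgebra.mapDomainRingHom_apply, AddMonoidAlgebra.mapDomain_single, ev_single]

theorem ev_map_sum {I : Type} [Fintype I] (ξ : I → GG)
    (c : I → AddMonoidAlgebra (KK L hL) (Fin d → ℤ)) (W : Finset (Fin d → ℤ))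
    (h : ∀ i n, (c i).coeff n ≠ 0 → n ∈ W) :
    ∑ i, ∑ n ∈ W, (c i).coeff n • (ch B hL (φ n) * ξ i) =
      ∑ i, ev B hL (AddMonoidAlgebra.mapDomainRingHom (KK L hL) φ (c i)) * ξ i := by
  refine Finset.sum_congr rfl fun i _ => ?_
  rw [ev_map hL φ (c i) W (h i), Finset.sum_mul]
  refine Finset.sum_congr rfl fun n _ => ?_
  rw [Subfield.smul_def, smul_eq_mul, mul_assoc]

end ev

/-! ### boxes -/

/-- boxes -/
noncomputable def box {d : ℕ} (h : Fin d → ℤ) : Finset (Fin d → ℤ) :=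
  Fintype.piFinset fun t => Finset.Ico (0 : ℤ) (h t)

theorem mem_box {d : ℕ} (h n : Fin d → ℤ) : n ∈ box h ↔ ∀ t, 0 ≤ n t ∧ n t < h t := by
  simp [box, Fintype.mem_piFinset]

theorem card_box {d : ℕ} (h : Fin d → ℤ) : (box h).card = ∏ t, (h t).toNat := by
  simp [box]

theorem exists_R {d : ℕ} (hi : Fin d → ℤ) (h0 : ∀ t, 0 ≤ hi t) : ∃ R : ℕ, 0 < R ∧
    ((box fun t => (R : ℤ) + hi t).card : ℝ) ≤ 2 * ((box fun _ : Fin d => (R : ℤ)).card : ℝ) := by
  have h1 : Tendsto (fun R : ℕ => ∏ t : Fin d, (1 + (hi t : ℝ) / (R : ℝ))) atTop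
      (𝓝 (∏ t : Fin d, (1 + 0 : ℝ))) := by
    refine tendsto_finsetProd _ (fun t _ => ?_)
    exact tendsto_const_nhds.add (tendsto_const_div_atTop_nhds_zero_nat _)
  simp only [add_zero, Finset.prod_const_one] at h1
  have h2 : ∀ᶠ R : ℕ in atTop, ∏ t : Fin d, (1 + (hi t : ℝ) / (R : ℝ)) < 2 :=
    h1.eventually (gt_mem_nhds (by norm_num))
  obtain ⟨R, hR, hR0⟩ := (h2.and (eventually_gt_atTop 0)).exists
  refine ⟨R, hR0, ?_⟩
  rw [card_box, card_box]
  have hRr : (0 : ℝ) < R := by exact_mod_cast hR0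
  have e1 : ((∏ t, ((R : ℤ) + hi t).toNat : ℕ) : ℝ) = ∏ t : Fin d, ((R : ℝ) + hi t) := by
    push_cast
    refine Finset.prod_congr rfl fun t _ => ?_
    have : ((((R : ℤ) + hi t).toNat : ℤ) : ℝ) = (((R : ℤ) + hi t : ℤ) : ℝ) := by
      rw [Int.toNat_of_nonneg (by have := h0 t; omega)]
    push_cast at this
    exact this
  have e2 : ((∏ t : Fin d, ((R : ℤ)).toNat : ℕ) : ℝ) = ∏ t : Fin d, (R : ℝ) := by
    simp
  rw [e1, e2]
  have e3 : ∏ t : Fin d, ((R : ℝ) + hi t) =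
      (∏ t : Fin d, (1 + (hi t : ℝ) / (R : ℝ))) * ∏ t : Fin d, (R : ℝ) := by
    rw [← Finset.prod_mul_distrib]
    refine Finset.prod_congr rfl fun t _ => ?_
    field_simp
  rw [e3]
  have : (0 : ℝ) ≤ ∏ t : Fin d, (R : ℝ) := Finset.prod_nonneg fun _ _ => hRr.le
  exact mul_le_mul_of_nonneg_right hR.le this

/-! ### the normalized case -/

section core
variable {m : ℕ} (B : Base m) (L : ℕ → ℝ) (hL : Tendsto L atTop atTop) (I : Type)
  [Fintype I] [DecidableEq I] (ξ : I → GG) (C : ℝ) (d : ℕ) (φ : (Fin d → ℤ) →+ (Fin m → ℝ))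
  (b : I → AddMonoidAlgebra (KK L hL) (Fin d → ℤ)) (hi : Fin d → ℤ)

/-- the basis at a place -/
noncomputable def TT {d : ℕ} {I : Type} [Fintype I] [DecidableEq I] (W Ω : Finset (Fin d → ℤ))
    (i₀ : I) (γ : Fin d → ℤ) : Finset ((Fin d → ℤ) × I) :=
  (W ×ˢ (Finset.univ : Finset I)).filter fun p => ¬ (p.2 = i₀ ∧ p.1 - γ ∈ Ω)

theorem sum_TT {d : ℕ} {I : Type} [Fintype I] [DecidableEq I] (W Ω : Finset (Fin d → ℤ))
    (i₀ : I) (γ : Fin d → ℤ) (hW : ∀ ω ∈ Ω, ω + γ ∈ W) (f : (Fin d → ℤ) → ℝ) :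
    ∑ p ∈ TT W Ω i₀ γ, f p.1 = Fintype.card I * ∑ n ∈ W, f n - ∑ ω ∈ Ω, f (ω + γ) := by
  have h1 := Finset.sum_filter_add_sum_filter_not (W ×ˢ (Finset.univ : Finset I))
    (fun p => p.2 = i₀ ∧ p.1 - γ ∈ Ω) (fun p => f p.1)
  have h2 : ∑ p ∈ W ×ˢ (Finset.univ : Finset I), f p.1 = Fintype.card I * ∑ n ∈ W, f n := by
    rw [Finset.sum_product, Finset.mul_sum]
    refine Finset.sum_congr rfl fun n _ => ?_
    simp
  have h3 : ∑ p ∈ (W ×ˢ (Finset.univ : Finset I)).filter (fun p => p.2 = i₀ ∧ p.1 - γ ∈ Ω),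
      f p.1 = ∑ ω ∈ Ω, f (ω + γ) := by
    symm
    refine Finset.sum_nbij' (fun ω => (ω + γ, i₀)) (fun p => p.1 - γ) ?_ ?_ ?_ ?_ ?_
    · intro ω hω
      simp [hω, hW ω hω]
    · intro p hp
      exact (Finset.mem_filter.1 hp).2.2
    · intro ω _
      simp
    · intro p hp
      have := (Finset.mem_filter.1 hp).2.1
      exact Prod.ext (by simp) this.symm
    · intro ω _
      rfl
  unfold TT
  rw [h2, h3] at h1
  linarith

end core

theorem core (h1 : S_NEWT) (h2 : S_LINK) {m : ℕ} (B : Base m) (L : ℕ → ℝ)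
    (hL : Tendsto L atTop atTop) (I : Type)
    [Fintype I] (ξ : I → GG) (C : ℝ) (hC : 0 ≤ C)
    (hval : ∀ v i, ξ i ∈ Sv B L v (-C)) (hs : ∀ i, Sint B L (ξ i))
    (d : ℕ) (φ : (Fin d → ℤ) →+ (Fin m → ℝ))
    (b : I → AddMonoidAlgebra (KK L hL) (Fin d → ℤ))
    (hrel : ∑ i, ev B hL (AddMonoidAlgebra.mapDomainRingHom (KK L hL) φ (b i)) * ξ i = 0)
    (hmul : ∀ c : I → AddMonoidAlgebra (KK L hL) (Fin d → ℤ),
      ∑ i, ev B hL (AddMonoidAlgebra.mapDomainRingHom (KK L hL) φ (c i)) * ξ i = 0 →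
      ∃ Q : AddMonoidAlgebra (KK L hL) (Fin d → ℤ), ∀ i, c i = Q * b i)
    (hi : Fin d → ℤ) (hbox : ∀ i n, (b i).coeff n ≠ 0 → ∀ t, 0 ≤ n t ∧ n t ≤ hi t)
    (hlo : ∀ t, ∃ i n, (b i).coeff n ≠ 0 ∧ n t = 0)
    (hhi : ∀ t, ∃ i n, (b i).coeff n ≠ 0 ∧ n t = hi t)
    (μ : Option (Fin m) → ℝ)
    (hμ : ∀ v, ∃ i n, (b i).coeff n ≠ 0 ∧ μ v = lv B v (φ n))
    (hμ' : ∀ v i n, (b i).coeff n ≠ 0 → μ v ≤ lv B v (φ n)) :
    -∑ v, μ v ≤ 2 * (m + 1) * C * Fintype.card I := by
  classical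
  have hhi0 : ∀ t, 0 ≤ hi t := fun t => by
    obtain ⟨i, n, hn, hn'⟩ := hlo t
    have := hbox i n hn t
    omega
  obtain ⟨R, hR0, hR⟩ := exists_R hi hhi0
  set Ω : Finset (Fin d → ℤ) := box fun _ : Fin d => (R : ℤ) with hΩ
  set W : Finset (Fin d → ℤ) := box fun t => (R : ℤ) + hi t with hW
  set x : (Fin d → ℤ) → I → GG := fun n i => ch B hL (φ n) * ξ i with hx
  have hadd : ∀ ω ∈ Ω, ∀ i n, (b i).coeff n ≠ 0 → ω + n ∈ W := by
    intro ω hω i n hn
    rw [hW, mem_box]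
    rw [hΩ, mem_box] at hω
    intro t
    have e1 := hω t
    have e2 := hbox i n hn t
    rw [Pi.add_apply]
    omega
  have L1 : ∀ Q : AddMonoidAlgebra (KK L hL) (Fin d → ℤ), (∀ n, Q.coeff n ≠ 0 → n ∈ Ω) →
      ∀ i n, (Q * b i).coeff n ≠ 0 → n ∈ W := by
    intro Q hQ i n hn
    obtain ⟨a, c, ha, hc, hac⟩ := exists_of_mul Q (b i) n hn
    rw [← hac]
    exact hadd a (hQ a ha) i c hc
  have L2 : ∀ Q : AddMonoidAlgebra (KK L hL) (Fin d → ℤ), (∀ n, Q.coeff n ≠ 0 → n ∈ Ω) →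
      ∑ i, ∑ n ∈ W, (Q * b i).coeff n • x n i = 0 := by
    intro Q hQ
    rw [hx, ev_map_sum (B := B) hL φ ξ (fun i => Q * b i) W (L1 Q hQ)]
    calc ∑ i, ev B hL (AddMonoidAlgebra.mapDomainRingHom (KK L hL) φ (Q * b i)) * ξ i
        = ev B hL (AddMonoidAlgebra.mapDomainRingHom (KK L hL) φ Q) *
          ∑ i, ev B hL (AddMonoidAlgebra.mapDomainRingHom (KK L hL) φ (b i)) * ξ i := by
          rw [Finset.mul_sum]
          refine Finset.sum_congr rfl fun i _ => ?_
          rw [map_mul, map_mul, mul_assoc]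
      _ = 0 := by rw [hrel, mul_zero]
  have L3 : ∀ c : I → AddMonoidAlgebra (KK L hL) (Fin d → ℤ),
      (∀ i n, (c i).coeff n ≠ 0 → n ∈ W) →
      ∑ i, ∑ n ∈ W, (c i).coeff n • x n i = 0 →
      ∃ Q : AddMonoidAlgebra (KK L hL) (Fin d → ℤ), (∀ n, Q.coeff n ≠ 0 → n ∈ Ω) ∧
        ∀ i, c i = Q * b i := by
    intro c hc hsum
    rw [hx, ev_map_sum (B := B) hL φ ξ c W hc] at hsum
    obtain ⟨Q, hQ⟩ := hmul c hsum
    refine ⟨Q, ?_, hQ⟩
    intro n hn
    rw [hΩ, mem_box]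
    refine h1 (KK L hL) d I b hi hbox hlo hhi Q R ?_ n hn
    intro i n hn t
    rw [← hQ i] at hn
    have := hc i n hn
    rw [hW, mem_box] at this
    exact this t
  -- the vertices
  have hvert : ∀ v : Option (Fin m), ∃ (i₀ : I) (γ : Fin d → ℤ), (b i₀).coeff γ ≠ 0 ∧
      μ v = lv B v (φ γ) ∧ ∀ S : Finset (Fin d → ℤ), S.Nonempty →
        ∃ s ∈ S, UniqueAdd S (b i₀).coeff.support s γ := by
    intro v
    obtain ⟨i₀, n, hn, hμn⟩ := hμ v
    obtain ⟨γ, hγ, hmin⟩ := Finset.exists_min_image (b i₀).coeff.support (key B φ v)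
      ⟨n, Finsupp.mem_support_iff.2 hn⟩
    have hγ0 := Finsupp.mem_support_iff.1 hγ
    refine ⟨i₀, γ, hγ0, le_antisymm (hμ' v i₀ γ hγ0) ?_, ?_⟩
    · rw [hμn]
      exact key_le B φ v (hmin n (Finsupp.mem_support_iff.2 hn))
    · intro S hS
      obtain ⟨s, hs, hsmin⟩ := Finset.exists_min_image S (key B φ v) hS
      exact ⟨s, hs, uniq B φ v hsmin hmin⟩
  choose i₀ γ hγ0 hγμ hγu using hvert
  have hlink := fun v => h2 (KK L hL) GG d I b W Ω x L1 L2 L3 (i₀ v) (γ v) (hγ0 v) (hγu v)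
  have hlcard : ∀ v, (TT W Ω (i₀ v) (γ v)).card + Ω.card = W.card * Fintype.card I :=
    fun v => (hlink v).1
  have hli : ∀ v, LinearIndependent (KK L hL)
      (fun p : TT W Ω (i₀ v) (γ v) => x p.1.1 p.1.2) := fun v => (hlink v).2.1
  have hspan : ∀ v, ∀ n ∈ W, ∀ i, x n i ∈ Submodule.span (KK L hL) (Set.range
      (fun p : TT W Ω (i₀ v) (γ v) => x p.1.1 p.1.2)) := fun v => (hlink v).2.2
  set D : ℕ := W.card * Fintype.card I - Ω.card with hD
  have hDc : ∀ v, (TT W Ω (i₀ v) (γ v)).card = D := fun v => by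
    have := hlcard v; omega
  let e : ∀ v, Fin D ≃ TT W Ω (i₀ v) (γ v) := fun v => (Finset.equivFinOfCardEq (hDc v)).symm
  have hmem : ∀ v (p : TT W Ω (i₀ v) (γ v)), p.1.1 ∈ W := fun v p =>
    (Finset.mem_product.1 (Finset.mem_filter.1 p.2).1).1
  have hmain := movq_thm m B L hL (Fin D) inferInstance
    (fun v j => x (e v j).1.1 (e v j).1.2) (fun v j => lv B v (φ (e v j).1.1) - C)
    (by
      intro v c hc
      have h3 := (Fintype.linearIndependent_iff.1 (hli v)) (fun p => c ((e v).symm p)) (by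
        rw [← hc, ← Equiv.sum_comp (e v)]
        refine Finset.sum_congr rfl fun j _ => ?_
        rw [Equiv.symm_apply_apply, Subfield.smul_def, smul_eq_mul])
      intro j
      have h4 := h3 (e v j)
      simpa using h4)
    (by
      intro v j
      have h3 := hspan none (e v j).1.1 (hmem v (e v j)) (e v j).1.2
      obtain ⟨c, hc⟩ := (Submodule.mem_span_range_iff_exists_fun (KK L hL)).1 h3
      refine ⟨fun j => c (e none j), ?_⟩
      rw [← hc, ← Equiv.sum_comp (e none)]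
      refine Finset.sum_congr rfl fun j _ => ?_
      rw [Subfield.smul_def, smul_eq_mul])
    (by
      intro v j
      have := (filt_v hL v).mul_mem (ch_mem hL v (φ (e v j).1.1)) (hval v (e v j).1.2)
      rw [← sub_eq_add_neg] at this
      exact this)
    (fun j => Sint.mul hL (ch_sint hL _) (hs _))
  -- the sum of the weights
  have hsumv : ∀ v, ∑ j, (lv B v (φ (e v j).1.1) - C) =
      Fintype.card I * ∑ n ∈ W, lv B v (φ n) - ∑ ω ∈ Ω, lv B v (φ ω) - Ω.card * μ v - D * C := by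
    intro v
    rw [Finset.sum_sub_distrib, Finset.sum_const, Finset.card_univ, Fintype.card_fin,
      nsmul_eq_mul]
    have e1 : ∑ j, lv B v (φ (e v j).1.1) = ∑ p ∈ TT W Ω (i₀ v) (γ v), lv B v (φ p.1) := by
      rw [Equiv.sum_comp (e v) (fun p => lv B v (φ p.1.1))]
      exact Finset.sum_coe_sort (TT W Ω (i₀ v) (γ v)) (fun p => lv B v (φ p.1))
    rw [e1, sum_TT W Ω (i₀ v) (γ v) (fun ω hω => hadd ω hω (i₀ v) (γ v) (hγ0 v))
      (fun n => lv B v (φ n))]
    have e2 : ∑ ω ∈ Ω, lv B v (φ (ω + γ v)) = ∑ ω ∈ Ω, lv B v (φ ω) + Ω.card * μ v := by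
      simp only [map_add, lv_add, Finset.sum_add_distrib, Finset.sum_const, nsmul_eq_mul, hγμ v]
    rw [e2]
    ring
  simp only [hsumv] at hmain
  have hz : ∀ S : Finset (Fin d → ℤ), ∑ v, ∑ n ∈ S, lv B v (φ n) = 0 := by
    intro S
    rw [Finset.sum_comm]
    exact Finset.sum_eq_zero fun n _ => lv_sum _
  have hfin : ∑ v : Option (Fin m), (Fintype.card I * ∑ n ∈ W, lv B v (φ n)
      - ∑ ω ∈ Ω, lv B v (φ ω) - Ω.card * μ v - D * C) =
      - (Ω.card * ∑ v, μ v) - (m + 1) * (D * C) := by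
    rw [Finset.sum_sub_distrib, Finset.sum_sub_distrib, Finset.sum_sub_distrib,
      ← Finset.mul_sum, hz, hz, ← Finset.mul_sum, Finset.sum_const, Finset.card_univ,
      Fintype.card_option, Fintype.card_fin, nsmul_eq_mul]
    push_cast
    ring
  rw [hfin] at hmain
  have hΩ0 : (0 : ℝ) < Ω.card := by
    have : 0 < Ω.card := by
      rw [hΩ, card_box]
      exact Finset.prod_pos fun t _ => by simpa using hR0
    exact_mod_cast this
  have hDle : (D : ℝ) ≤ W.card * Fintype.card I := by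
    have : D ≤ W.card * Fintype.card I := Nat.sub_le _ _
    exact_mod_cast this
  have hIc : (0 : ℝ) ≤ Fintype.card I := Nat.cast_nonneg _
  have h5 : (Ω.card : ℝ) * (-∑ v, μ v) ≤ (m + 1) * (D * C) := by linarith
  have h6 : ((m : ℝ) + 1) * (D * C) ≤ Ω.card * (2 * (m + 1) * C * Fintype.card I) := by
    have h7 : (D : ℝ) ≤ 2 * Ω.card * Fintype.card I :=
      hDle.trans (mul_le_mul_of_nonneg_right hR hIc)
    calc ((m : ℝ) + 1) * (D * C) ≤ (m + 1) * ((2 * Ω.card * Fintype.card I) * C) := by gcongr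
      _ = _ := by ring
  exact le_of_mul_le_mul_left (h5.trans h6) hΩ0

theorem hgt (h1 : S_NEWT) (h2 : S_LINK) : S_HGT := by
  intro m B L hL I _ ξ C hC hval hs d φ _ b hb hrel hmul μ hμ hμ'
  classical
  set S : Finset (Fin d → ℤ) := Finset.univ.biUnion fun i => (b i).coeff.support with hS
  have hmemS : ∀ n, n ∈ S ↔ ∃ i, (b i).coeff n ≠ 0 := by
    intro n
    simp [hS]
  have hSne : S.Nonempty := by
    obtain ⟨i, n, hn, _⟩ := hμ none
    exact ⟨n, (hmemS n).2 ⟨i, hn⟩⟩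
  set lo : Fin d → ℤ := fun t => S.inf' hSne (fun n => n t) with hlo
  set up : Fin d → ℤ := fun t => S.sup' hSne (fun n => n t) with hup
  set b' : I → AddMonoidAlgebra (KK L hL) (Fin d → ℤ) :=
    fun i => AddMonoidAlgebra.single (-lo) 1 * b i with hb'
  have hcoeff : ∀ i n, (b' i).coeff n = (b i).coeff (lo + n) := by
    intro i n
    rw [hb']
    simp only []
    rw [AddMonoidAlgebra.coeff_single_mul_apply, one_mul, neg_neg]
  have hinv : ∀ f : AddMonoidAlgebra (KK L hL) (Fin d → ℤ),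
      f * AddMonoidAlgebra.single lo 1 * AddMonoidAlgebra.single (-lo) 1 = f := by
    intro f
    rw [mul_assoc, AddMonoidAlgebra.single_mul_single, add_neg_cancel, one_mul,
      ← AddMonoidAlgebra.one_def, mul_one]
  have hcore := core h1 h2 B L hL I ξ C hC hval hs d φ b'
    (by
      calc ∑ i, ev B hL (AddMonoidAlgebra.mapDomainRingHom (KK L hL) φ (b' i)) * ξ i
          = ev B hL (AddMonoidAlgebra.mapDomainRingHom (KK L hL) φ
              (AddMonoidAlgebra.single (-lo) 1)) *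
            ∑ i, ev B hL (AddMonoidAlgebra.mapDomainRingHom (KK L hL) φ (b i)) * ξ i := by
            rw [Finset.mul_sum]
            refine Finset.sum_congr rfl fun i _ => ?_
            rw [hb']
            simp only []
            rw [map_mul, map_mul, mul_assoc]
        _ = 0 := by rw [hrel, mul_zero])
    (by
      intro c hc
      obtain ⟨Q, hQ⟩ := hmul c hc
      refine ⟨Q * AddMonoidAlgebra.single lo 1, fun i => ?_⟩
      rw [hb']
      simp only []
      rw [← mul_assoc, hinv, hQ i])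
    (fun t => up t - lo t)
    (by
      intro i n hn t
      rw [hcoeff] at hn
      have hnS : lo + n ∈ S := (hmemS _).2 ⟨i, hn⟩
      have e1 : lo t ≤ (lo + n) t := Finset.inf'_le (fun n : Fin d → ℤ => n t) hnS
      have e2 : (lo + n) t ≤ up t := Finset.le_sup' (fun n : Fin d → ℤ => n t) hnS
      rw [Pi.add_apply] at e1 e2
      constructor
      · omega
      · show n t ≤ up t - lo t
        omega)
    (by
      intro t
      obtain ⟨n, hn, hn'⟩ := Finset.exists_mem_eq_inf' hSne (fun n : Fin d → ℤ => n t)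
      obtain ⟨i, hi⟩ := (hmemS n).1 hn
      refine ⟨i, n - lo, ?_, ?_⟩
      · rw [hcoeff, add_sub_cancel]
        exact hi
      · have : lo t = n t := hn'
        rw [Pi.sub_apply, this, sub_self])
    (by
      intro t
      obtain ⟨n, hn, hn'⟩ := Finset.exists_mem_eq_sup' hSne (fun n : Fin d → ℤ => n t)
      obtain ⟨i, hi⟩ := (hmemS n).1 hn
      refine ⟨i, n - lo, ?_, ?_⟩
      · rw [hcoeff, add_sub_cancel]
        exact hi
      · have : up t = n t := hn'
        rw [Pi.sub_apply, ← this])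
    (fun v => μ v - lv B v (φ lo))
    (by
      intro v
      obtain ⟨i, n, hn, hn'⟩ := hμ v
      refine ⟨i, n - lo, ?_, ?_⟩
      · rw [hcoeff, add_sub_cancel]
        exact hn
      · show μ v - lv B v (φ lo) = _
        rw [hn', map_sub, lv_sub])
    (by
      intro v i n hn
      rw [hcoeff] at hn
      have := hμ' v i (lo + n) hn
      rw [map_add, lv_add] at this
      show μ v - lv B v (φ lo) ≤ _
      linarith)
  rw [Finset.sum_sub_distrib, lv_sum, sub_zero] at hcore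
  exact hcore

end Pool.Agent.L0h97.FR.Hgt
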