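import Pool.Agent.L0h79.FR.Defs

/-!
# Project FR, module TPOLY: the number of paths avoiding the letters which reproduce twice
-/

set_option autoImplicit false
set_option linter.all false

namespace Pool.Agent.L0h97.FR.TPoly

open Pool.Agent.L0h79.FR

section Basic
variable {α : Type}

theorem sub_add (σ : α → List α) : ∀ (m n : ℕ) (u : List α), sub σ (m + n) u = sub σ n (sub σ m u)
  | 0, n, u => by rw [Nat.zero_add]; rfl
  | m + 1, n, u => by
      rw [show m + 1 + n = (m + n) + 1 by ring]
      exact sub_add σ m n (u.flatMap σ)

theorem sub_append (σ : α → List α) : ∀ (n : ℕ) (u v : List α),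
    sub σ n (u ++ v) = sub σ n u ++ sub σ n v
  | 0, u, v => rfl
  | n + 1, u, v => by
      show sub σ n ((u ++ v).flatMap σ) = sub σ n (u.flatMap σ) ++ sub σ n (v.flatMap σ)
      rw [List.flatMap_append]
      exact sub_append σ n _ _

theorem sub_nil (σ : α → List α) : ∀ (n : ℕ), sub σ n [] = []
  | 0 => rfl
  | n + 1 => by
      show sub σ n (([] : List α).flatMap σ) = []
      rw [List.flatMap_nil]
      exact sub_nil σ n

theorem sub_flatMap (σ : α → List α) (n : ℕ) : ∀ u : List α,
    sub σ n u = u.flatMap (fun c => sub σ n [c])
  | [] => by rw [sub_nil, List.flatMap_nil]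
  | c :: u => by
      rw [List.flatMap_cons, ← sub_flatMap σ n u, ← sub_append]
      rfl

theorem sub_succ_single (σ : α → List α) (n : ℕ) (c : α) : sub σ (n + 1) [c] = sub σ n (σ c) := by
  show sub σ n (([c] : List α).flatMap σ) = _
  rw [List.flatMap_singleton]

theorem count_sub [DecidableEq α] (σ : α → List α) (n : ℕ) (e : α) (u : List α) :
    (sub σ n u).count e = (u.map (fun c => (sub σ n [c]).count e)).sum := by
  rw [sub_flatMap σ n u, List.count_flatMap]
  rfl

theorem length_sub (σ : α → List α) (n : ℕ) (u : List α) :
    (sub σ n u).length = (u.map (fun c => (sub σ n [c]).length)).sum := by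
  rw [sub_flatMap σ n u, List.length_flatMap]

theorem paths_mem (σ : α → List α) (R : Set α) (n : ℕ) (c : α) (hc : c ∈ R) :
    paths σ R n c = 0 := by
  cases n with
  | zero => simp [paths, hc]
  | succ n => simp [paths, hc]

theorem paths_zero (σ : α → List α) (R : Set α) (c : α) (hc : c ∉ R) :
    paths σ R 0 c = 1 := by
  simp [paths, hc]

theorem paths_succ (σ : α → List α) (R : Set α) (n : ℕ) (c : α) (hc : c ∉ R) :
    paths σ R (n + 1) c = ((σ c).map (paths σ R n)).sum := by
  simp [paths, hc]

theorem sum_map_le {β : Type} (l : List β) (f g : β → ℕ) (h : ∀ b ∈ l, f b ≤ g b) :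
    (l.map f).sum ≤ (l.map g).sum := List.sum_le_sum h

/-- the paths after the last visit to `e` -/
noncomputable def V (σ : α → List α) (R' : Set α) (e : α) : ℕ → ℕ
  | 0 => 1
  | i + 1 => ((σ e).map (paths σ R' i)).sum

theorem key [DecidableEq α] (σ : α → List α) (R : Set α) (e : α) : ∀ (n : ℕ) (c : α),
    paths σ R n c ≤ paths σ (insert e R) n c +
      ∑ j ∈ Finset.range (n + 1), (sub σ j [c]).count e * V σ (insert e R) e (n - j)
  | 0, c => by
      by_cases hc : c ∈ R
      · rw [paths_mem σ R 0 c hc]; exact Nat.zero_le _
      · rw [paths_zero σ R c hc]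
        by_cases hce : c = e
        · subst hce
          simp [sub, V]
        · rw [paths_zero σ (insert e R) c (by simp [hce, hc])]
          omega
  | n + 1, c => by
      by_cases hc : c ∈ R
      · rw [paths_mem σ R (n + 1) c hc]; exact Nat.zero_le _
      · rw [paths_succ σ R n c hc]
        have h1 : ((σ c).map (paths σ R n)).sum ≤
            ((σ c).map (fun d => paths σ (insert e R) n d +
              ∑ j ∈ Finset.range (n + 1), (sub σ j [d]).count e *
                V σ (insert e R) e (n - j))).sum :=
          sum_map_le _ _ _ (fun d _ => key σ R e n d)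
        have h2 : ((σ c).map (fun d => paths σ (insert e R) n d +
              ∑ j ∈ Finset.range (n + 1), (sub σ j [d]).count e *
                V σ (insert e R) e (n - j))).sum =
            ((σ c).map (paths σ (insert e R) n)).sum +
              ∑ j ∈ Finset.range (n + 1), (sub σ (j + 1) [c]).count e *
                V σ (insert e R) e (n - j) := by
          rw [List.sum_map_add]
          congr 1
          generalize hl : σ c = l
          have h3 : ∀ j, (sub σ (j + 1) [c]).count e =
              (l.map (fun d => (sub σ j [d]).count e)).sum := by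
            intro j
            rw [sub_succ_single, hl, count_sub]
          simp only [h3]
          clear hl h3 h1
          induction l with
          | nil => simp
          | cons d l ih =>
            simp only [List.map_cons, List.sum_cons, ih, add_mul, Finset.sum_add_distrib]
        rw [h2] at h1
        refine h1.trans ?_
        rw [Finset.sum_range_succ' (fun j => (sub σ j [c]).count e *
          V σ (insert e R) e (n + 1 - j)) (n + 1)]
        have h4 : ∀ j, n + 1 - (j + 1) = n - j := fun j => by omega
        simp only [h4]
        by_cases hce : c = e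
        · subst hce
          have h5 : (sub σ 0 [c]).count c * V σ (insert c R) c (n + 1 - 0) =
              ((σ c).map (paths σ (insert c R) n)).sum := by
            simp [sub, V]
          rw [h5]
          omega
        · rw [paths_succ σ (insert e R) n c (by simp [hce, hc])]
          omega

end Basic

theorem bnd (A K n : ℕ) : 1 + n * (A * (K * (n + 1) ^ K)) ≤ (A * K + K + 1) * (n + 1) ^ (A * K + K + 1) := by
  have h1 : (n + 1) ^ (K + 1) ≤ (n + 1) ^ (A * K + K + 1) :=
    Nat.pow_le_pow_right (by omega) (by omega)
  have h2 : 1 ≤ (n + 1) ^ (K + 1) := Nat.one_le_pow _ _ (by omega)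
  calc 1 + n * (A * (K * (n + 1) ^ K)) ≤ (n + 1) ^ (K + 1) + A * K * (n + 1) ^ (K + 1) := by
        have : n * (A * (K * (n + 1) ^ K)) ≤ A * K * (n + 1) ^ (K + 1) := by
          calc n * (A * (K * (n + 1) ^ K)) = A * K * (n * (n + 1) ^ K) := by ring
            _ ≤ A * K * ((n + 1) * (n + 1) ^ K) :=
              Nat.mul_le_mul_left _ (Nat.mul_le_mul_right _ (by omega))
            _ = A * K * (n + 1) ^ (K + 1) := by ring
        omega
    _ = (A * K + 1) * (n + 1) ^ (K + 1) := by ring
    _ ≤ (A * K + K + 1) * (n + 1) ^ (A * K + K + 1) :=
        Nat.mul_le_mul (by omega) h1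

theorem main {α : Type} [Finite α] [DecidableEq α] (σ : α → List α) : ∀ (k : ℕ) (X : Finset α),
    X.card = k → (∀ e ∈ X, ∀ j, (sub σ (j + 1) [e]).count e ≤ 1) →
    ∃ K : ℕ, ∀ n c, paths σ (X : Set α)ᶜ n c ≤ K * (n + 1) ^ K
  | 0, X, hX, _ => by
      refine ⟨0, fun n c => ?_⟩
      rw [Finset.card_eq_zero] at hX
      subst hX
      rw [paths_mem σ _ n c (by simp)]
      exact Nat.zero_le _
  | k + 1, X, hX, h => by
      have h1 : ∀ e : α, ∃ K : ℕ, ∀ n, paths σ (X : Set α)ᶜ n e ≤ K * (n + 1) ^ K := by
        intro e
        by_cases he : e ∈ X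
        · obtain ⟨K, hK⟩ := main σ k (X.erase e) (by rw [Finset.card_erase_of_mem he, hX]; rfl)
            (fun e' he' => h e' (Finset.mem_of_mem_erase he'))
          have hins : ((X.erase e : Finset α) : Set α)ᶜ = insert e (X : Set α)ᶜ := by
            ext x
            by_cases hx : x = e <;> simp [hx]
          rw [hins] at hK
          refine ⟨(σ e).length * K + K + 1, fun n => ?_⟩
          have h2 := key σ (X : Set α)ᶜ e n e
          rw [paths_mem σ (insert e (X : Set α)ᶜ) n e (by simp), Nat.zero_add] at h2
          refine h2.trans (le_trans ?_ (bnd (σ e).length K n))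
          have hN : ∀ j, (sub σ j [e]).count e ≤ 1 := by
            intro j
            cases j with
            | zero => simp [sub]
            | succ j => exact h e he j
          have hV : ∀ i, i + 1 ≤ n → V σ (insert e (X : Set α)ᶜ) e (i + 1) ≤
              (σ e).length * (K * (n + 1) ^ K) := by
            intro i hi
            show ((σ e).map (paths σ (insert e (X : Set α)ᶜ) i)).sum ≤ _
            have h3 : ((σ e).map (paths σ (insert e (X : Set α)ᶜ) i)).sum ≤
                ((σ e).map (fun _ => K * (n + 1) ^ K)).sum := by
              refine sum_map_le _ _ _ (fun d _ => (hK i d).trans ?_)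
              exact Nat.mul_le_mul_left _ (Nat.pow_le_pow_left (by omega) _)
            refine h3.trans (le_of_eq ?_)
            simp
          calc ∑ j ∈ Finset.range (n + 1), (sub σ j [e]).count e *
                V σ (insert e (X : Set α)ᶜ) e (n - j)
              ≤ ∑ j ∈ Finset.range (n + 1), V σ (insert e (X : Set α)ᶜ) e (n - j) := by
                refine Finset.sum_le_sum (fun j _ => ?_)
                calc _ ≤ 1 * V σ (insert e (X : Set α)ᶜ) e (n - j) :=
                      Nat.mul_le_mul_right _ (hN j)
                  _ = _ := Nat.one_mul _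
            _ = ∑ j ∈ Finset.range n, V σ (insert e (X : Set α)ᶜ) e (n - j) + 1 := by
                rw [Finset.sum_range_succ, Nat.sub_self]
                rfl
            _ ≤ ∑ j ∈ Finset.range n, (σ e).length * (K * (n + 1) ^ K) + 1 := by
                refine Nat.add_le_add_right (Finset.sum_le_sum (fun j hj => ?_)) _
                rw [Finset.mem_range] at hj
                have h5 : n - j = (n - j - 1) + 1 := by omega
                rw [h5]
                exact hV _ (by omega)
            _ = 1 + n * ((σ e).length * (K * (n + 1) ^ K)) := by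
                rw [Finset.sum_const, Finset.card_range, smul_eq_mul]; ring
        · refine ⟨0, fun n => ?_⟩
          rw [paths_mem σ _ n e (by simpa using he)]
          exact Nat.zero_le _
      choose f hf using h1
      haveI := Fintype.ofFinite α
      refine ⟨∑ e, f e, fun n c => (hf c n).trans ?_⟩
      have h6 : f c ≤ ∑ e, f e := Finset.single_le_sum (fun _ _ => Nat.zero_le _) (Finset.mem_univ c)
      exact Nat.mul_le_mul h6 (Nat.pow_le_pow_right (by omega) h6)

theorem tpoly : S_TPOLY := by
  intro α hα hd σ R h
  haveI := Fintype.ofFinite α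
  classical
  obtain ⟨K, hK⟩ := main σ _ ((Finset.univ : Finset α).filter (fun e => e ∉ R)) rfl
    (fun e he j => h e (by simpa using he) j)
  refine ⟨K, fun n c => ?_⟩
  have h1 : (((Finset.univ : Finset α).filter (fun e => e ∉ R) : Finset α) : Set α)ᶜ = R := by
    ext x
    simp
  rw [h1] at hK
  exact hK n c

end Pool.Agent.L0h97.FR.TPoly
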